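import Pool.Agent.R123.Hertz.Corr

/-!
# Wilf classes of Hertzsprung patterns and palindromic prefixes (MP_7acacd, Q1)

`aCount k` is the number of Wilf-equivalence classes of `S_k` for Hertzsprung patterns,
`bCount n` is the number of sets `P(w)` for palindromes `w ∈ {0,1}^n`. We show
`aCount k = bCount (k+1)` for all `k ≥ 3`.

`OccursAt` and `avoidCount` are defined in `Pool.Agent.R123.Hertz.Count`.
-/

namespace Pool.Agent.Results.MP_7acacd_co.HertzsprungPalindromes

open R123.Hertz

/-- Wilf equivalence of Hertzsprung patterns of length `k`: equal avoidance counts for all `n`. -/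
def wilfSetoid (k : ℕ) : Setoid (Equiv.Perm (Fin k)) where
  r σ τ := ∀ n, avoidCount σ n = avoidCount τ n
  iseqv := ⟨fun _ _ => rfl, fun h n => (h n).symm, fun h1 h2 n => (h1 n).trans (h2 n)⟩

/-- The number of Wilf-equivalence classes of `S_k`. -/
noncomputable def aCount (k : ℕ) : ℕ := Nat.card (Quotient (wilfSetoid k))

/-- The set of lengths of palindromic prefixes of a binary word. -/
def palPrefixes (w : List Bool) : Set ℕ :=
  {i | 1 ≤ i ∧ i ≤ w.length ∧ (w.take i).reverse = w.take i}

/-- The number of distinct sets `P(w)`, `w` a binary palindrome of length `n`. -/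
noncomputable def bCount (n : ℕ) : ℕ :=
  {S : Set ℕ | ∃ w : List Bool, w.length = n ∧ w.reverse = w ∧ S = palPrefixes w}.ncard

/-- translation between shift sets and prefix sets -/
def Phi (k : ℕ) (O : Set ℕ) : Set ℕ := {i | i = 1 ∨ i = k + 1 ∨ ∃ g ∈ O, i = k + 1 - g}

theorem Phi_inj (k : ℕ) (O O' : Set ℕ) (hO : ∀ g ∈ O, 1 ≤ g ∧ g < k)
    (hO' : ∀ g ∈ O', 1 ≤ g ∧ g < k) (h : Phi k O = Phi k O') : O = O' := by
  have key : ∀ O O' : Set ℕ, (∀ g ∈ O, 1 ≤ g ∧ g < k) → (∀ g ∈ O', 1 ≤ g ∧ g < k) →
      Phi k O = Phi k O' → O ⊆ O' := by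
    intro O O' hO hO' h g hg
    have h1 := hO g hg
    have h2 : k + 1 - g ∈ Phi k O := Or.inr (Or.inr ⟨g, hg, rfl⟩)
    rw [h] at h2
    rcases h2 with h3 | h3 | ⟨g', hg', h3⟩
    · omega
    · omega
    · have h4 := hO' g' hg'
      have : g = g' := by omega
      rw [this]
      exact hg'
  exact Set.Subset.antisymm (key O O' hO hO' h) (key O' O hO' hO h.symm)

theorem take_pal (w : List Bool) (i : ℕ) (hi : i ≤ w.length) :
    (w.take i).reverse = w.take i ↔ Pal (fun j => w.getD j false) i := by
  have hlen : (w.take i).length = i := by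
    rw [List.length_take]
    omega
  constructor
  · intro h j hj
    have h1 : (w.take i).reverse[j]? = (w.take i)[j]? := by rw [h]
    rw [List.getElem?_reverse (by omega), hlen, List.getElem?_take, List.getElem?_take,
      if_pos (by omega), if_pos hj] at h1
    simp only [List.getD_eq_getElem?_getD]
    rw [h1]
  · intro h
    apply List.ext_getElem
    · rw [List.length_reverse]
    · intro j h1 h2
      rw [List.length_reverse] at h1
      have h3 := h j (by omega)
      rw [List.getElem_reverse, List.getElem_take, List.getElem_take]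
      simp only [List.getD_eq_getElem?_getD] at h3
      rw [List.getElem?_eq_getElem (by omega), List.getElem?_eq_getElem (by omega)] at h3
      simp only [Option.getD_some] at h3
      rw [← h3]
      congr 1
      omega

theorem pal_prefix_iff (h : ℕ → Bool) (n i : ℕ) (hp : Pal h n) (hi : i < n) :
    Pal h i ↔ Per h n (n - i) := by
  constructor
  · intro H j hj
    have h1 := hp (j + (n - i)) hj
    rw [← h1]
    rw [show n - 1 - (j + (n - i)) = i - 1 - j by omega]
    exact H j (by omega)
  · intro H j hj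
    have h1 := hp (j + (n - i)) (by omega)
    rw [show n - 1 - (j + (n - i)) = i - 1 - j by omega, H j (by omega)] at h1
    exact h1

theorem palPrefixes_eq (k : ℕ) (hk : 1 ≤ k) (w : List Bool) (hw : w.length = k + 1)
    (hp : Pal (fun j => w.getD j false) (k + 1)) :
    palPrefixes w = Phi k {g | 1 ≤ g ∧ g < k ∧ Per (fun j => w.getD j false) (k + 1) g} := by
  ext i
  constructor
  · rintro ⟨h1, h2, h3⟩
    rw [take_pal w i h2] at h3
    rw [hw] at h2
    by_cases hi1 : i = 1
    · exact Or.inl hi1
    by_cases hik : i = k + 1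
    · exact Or.inr (Or.inl hik)
    refine Or.inr (Or.inr ⟨k + 1 - i, ⟨by omega, by omega, ?_⟩, by omega⟩)
    exact (pal_prefix_iff _ (k + 1) i hp (by omega)).mp h3
  · rintro (rfl | rfl | ⟨g, ⟨hg1, hg2, hg3⟩, rfl⟩)
    · refine ⟨le_rfl, by omega, ?_⟩
      rw [take_pal w 1 (by omega)]
      intro j hj
      have : j = 0 := by omega
      subst this
      rfl
    · refine ⟨by omega, by omega, ?_⟩
      rw [take_pal w (k + 1) (by omega)]
      exact hp
    · refine ⟨by omega, by omega, ?_⟩
      rw [take_pal w _ (by omega)]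
      apply (pal_prefix_iff _ (k + 1) (k + 1 - g) hp (by omega)).mpr
      rw [show k + 1 - (k + 1 - g) = g by omega]
      exact hg3

theorem range_eq (k : ℕ) (hk : 3 ≤ k) :
    {S : Set ℕ | ∃ w : List Bool, w.length = k + 1 ∧ w.reverse = w ∧ S = palPrefixes w} =
      Phi k '' (Set.range (fun σ : Equiv.Perm (Fin k) => Ov σ)) := by
  ext S
  constructor
  · rintro ⟨w, hw, hrev, rfl⟩
    have hp : Pal (fun j => w.getD j false) (k + 1) := by
      have h1 : (w.take (k + 1)).reverse = w.take (k + 1) := by
        rw [← hw, List.take_length]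
        exact hrev
      exact (take_pal w (k + 1) (by omega)).mp h1
    obtain ⟨σ, hσ⟩ := perm_of_word hk _ hp
    refine ⟨Ov σ, ⟨σ, rfl⟩, ?_⟩
    rw [hσ, palPrefixes_eq k (by omega) w hw hp]
  · rintro ⟨_, ⟨σ, rfl⟩, rfl⟩
    obtain ⟨σ', h1, h2, _⟩ := exists_noMinus σ
    obtain ⟨h, hp, hO⟩ := word_of_perm (by omega) σ' h1
    obtain ⟨w, hwd⟩ : ∃ w : List Bool, w = List.ofFn (fun i : Fin (k + 1) => h i) := ⟨_, rfl⟩
    have hw : w.length = k + 1 := by rw [hwd, List.length_ofFn]
    have hget : ∀ j, j < k + 1 → h j = w.getD j false := by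
      intro j hj
      rw [hwd, List.getD_eq_getElem?_getD, List.getElem?_ofFn, dif_pos hj]
      rfl
    have hp' : Pal (fun j => w.getD j false) (k + 1) := by
      intro j hj
      simp only
      rw [← hget _ (by omega), ← hget j hj]
      exact hp j hj
    refine ⟨w, hw, ?_, ?_⟩
    · have := (take_pal w (k + 1) (by omega)).mpr hp'
      rw [← hw, List.take_length] at this
      exact this
    · rw [palPrefixes_eq k (by omega) w hw hp']
      simp only
      rw [← h2, hO]
      congr 1
      ext g
      constructor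
      · rintro ⟨a, b, c⟩
        exact ⟨a, b, (per_congr hget g).mp c⟩
      · rintro ⟨a, b, c⟩
        exact ⟨a, b, (per_congr hget g).mpr c⟩

/-- MP_7acacd, Q1: `a_k = b_{k+1}` for every `k ≥ 3`. -/
theorem result : ∀ k : ℕ, 3 ≤ k → aCount k = bCount (k + 1) := by
  intro k hk
  have h1 : wilfSetoid k = Setoid.ker (fun σ : Equiv.Perm (Fin k) => Ov σ) := by
    ext σ τ
    exact wilf_iff σ τ
  have h2 : aCount k = (Set.range (fun σ : Equiv.Perm (Fin k) => Ov σ)).ncard := by
    unfold aCount
    rw [h1, Nat.card_congr (Setoid.quotientKerEquivRange _)]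
    rfl
  rw [h2, bCount, range_eq k hk, Set.InjOn.ncard_image]
  rintro _ ⟨σ, rfl⟩ _ ⟨τ, rfl⟩ h
  exact Phi_inj k _ _ (fun g hg => ⟨hg.1, hg.2.1⟩) (fun g hg => ⟨hg.1, hg.2.1⟩) h

end Pool.Agent.Results.MP_7acacd_co.HertzsprungPalindromes
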